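import Pool.Agent.Helper49.SP.Fam

/-!
# Quotients by `p`-closed vector fields: definitions
-/

set_option autoImplicit false
set_option linter.unusedSectionVars false

namespace Pool.Agent.Helper50.VF

open Finset Pool.Agent.W559.Mg Pool.Agent.Helper46.AQ Pool.Agent.Helper49.SP Pointwise

section dm

variable {k K : Type} [Field k] [Field K] [Algebra k K]

/-- The coefficientwise extension of a derivation to Laurent polynomials (a linear map). -/
noncomputable def dm (δ : Derivation k K K) (L : Type) [AddCommGroup L] : ML K L →ₗ[k] ML K L where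
  toFun f := ∑ d ∈ f.coeff.support, mo d (δ (f.coeff d))
  map_add' f g := by
    classical
    refine ml_ext fun m => ?_
    have key : ∀ f : ML K L, (∑ d ∈ f.coeff.support, mo d (δ (f.coeff d)) : ML K L).coeff m =
        δ (f.coeff m) := by
      intro f
      rw [coeff_sum']
      simp only [coeff_mo]
      rw [Finset.sum_ite_eq']
      split_ifs with h
      · rfl
      · rw [Finsupp.notMem_support_iff.1 h, map_zero]
    rw [coeff_add', key, key, key, coeff_add', map_add]
  map_smul' r f := by
    classical
    refine ml_ext fun m => ?_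
    have key : ∀ f : ML K L, (∑ d ∈ f.coeff.support, mo d (δ (f.coeff d)) : ML K L).coeff m =
        δ (f.coeff m) := by
      intro f
      rw [coeff_sum']
      simp only [coeff_mo]
      rw [Finset.sum_ite_eq']
      split_ifs with h
      · rfl
      · rw [Finsupp.notMem_support_iff.1 h, map_zero]
    rw [key, coeff_smul', RingHom.id_apply, coeff_smul', key, Derivation.map_smul]

variable (δ : Derivation k K K) {L : Type} [AddCommGroup L]

lemma dm_coeff (f : ML K L) (m : L) : (dm δ L f).coeff m = δ (f.coeff m) := by
  classical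
  change (∑ d ∈ f.coeff.support, mo d (δ (f.coeff d)) : ML K L).coeff m = _
  rw [coeff_sum']
  simp only [coeff_mo]
  rw [Finset.sum_ite_eq']
  split_ifs with h
  · rfl
  · rw [Finsupp.notMem_support_iff.1 h, map_zero]

lemma dm_mo (m : L) (a : K) : dm δ L (mo m a) = mo m (δ a) := by
  classical
  refine ml_ext fun e => ?_
  rw [dm_coeff, coeff_mo, coeff_mo]
  split_ifs
  · rfl
  · exact map_zero δ

/-- The Leibniz rule. -/
lemma dm_mul (f g : ML K L) : dm δ L (f * g) = f * dm δ L g + dm δ L f * g := by
  refine ml_ext fun m => ?_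
  rw [dm_coeff, coeff_mul_sum, map_sum, coeff_add', coeff_mul_sum]
  have h1 : (dm δ L f * g).coeff m = ∑ a ∈ f.coeff.support, δ (f.coeff a) * g.coeff (m - a) := by
    conv_lhs => rw [show dm δ L f = ∑ d ∈ f.coeff.support, mo d (δ (f.coeff d)) from rfl,
      Finset.sum_mul]
    rw [coeff_sum']
    refine Finset.sum_congr rfl fun a _ => ?_
    rw [coeff_mo_mul]
  rw [h1, ← Finset.sum_add_distrib]
  refine Finset.sum_congr rfl fun a _ => ?_
  rw [dm_coeff, Derivation.leibniz, smul_eq_mul, smul_eq_mul]
  ring

/-- The constants of the derivation. -/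
noncomputable def Fd (δ : Derivation k K K) (L : Type) [AddCommGroup L] :
    Subalgebra k (ML K L) where
  carrier := {f | ∀ m, δ (f.coeff m) = 0}
  mul_mem' := by
    intro f g hf hg m
    rw [coeff_mul_sum, map_sum]
    refine Finset.sum_eq_zero fun a _ => ?_
    rw [Derivation.leibniz, hf, hg, smul_zero, smul_zero, add_zero]
  add_mem' := by
    intro f g hf hg m
    rw [coeff_add', map_add, hf, hg, add_zero]
  algebraMap_mem' := by
    classical
    intro r m
    rw [algebraMap_ML, coeff_mo]
    split_ifs with h
    · exact δ.map_algebraMap r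
    · rw [map_zero]

lemma mem_Fd {f : ML K L} : f ∈ Fd δ L ↔ dm δ L f = 0 := by
  constructor
  · intro h
    refine ml_ext fun m => ?_
    rw [dm_coeff, h m]
    rfl
  · intro h m
    rw [← dm_coeff, h]
    rfl

lemma mo_mem_Fd {m : L} {a : K} : mo m a ∈ Fd δ L ↔ δ a = 0 := by
  classical
  constructor
  · intro h
    have h1 := h m
    rwa [coeff_mo_same] at h1
  · intro h m'
    rw [coeff_mo]
    split_ifs
    · exact h
    · rw [map_zero]

end dm

end Pool.Agent.Helper50.VF
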